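import Mathlib
import Pool.Agent.Y869.LS.Main

/-!
# Boundary blow-up of analytic semigroups in `L¹(ℝ)`

Every analytic semigroup in the convolution algebra `L¹(ℝ)` is unbounded near almost every pair
`{iy, -iy}` of points of the imaginary axis, already along the horizontal segments that end there.
In particular no analytic semigroup is bounded on a half disc of any radius around `0`, or on
`{x + iy : 0 < x < r, |y| ∈ E}` for any `r > 0` and any set `E` of positive measure.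
-/

set_option autoImplicit false

open MeasureTheory Filter Topology

namespace Pool.Agent.Results.MP_8f84d8_an.BoundaryBlowUp

/-- An analytic semigroup in the convolution algebra `L¹(ℝ)` of complex integrable functions:
a map from the open right half plane to `L¹(ℝ)` that is holomorphic, turns addition into
convolution, and is not identically zero. -/
structure IsAnalyticSemigroup (a : ℂ → Lp ℂ 1 (volume : Measure ℝ)) : Prop where
  /-- `t ↦ a t` is holomorphic on the open right half plane. -/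
  holomorphic : DifferentiableOn ℂ a {t : ℂ | 0 < t.re}
  /-- `a (s + t)` is the convolution of `a s` and `a t`. -/
  semigroup : ∀ s t : ℂ, 0 < s.re → 0 < t.re →
    (a (s + t) : ℝ → ℂ) =ᵐ[volume] fun x => ∫ y, (a s : ℝ → ℂ) (x - y) * (a t : ℝ → ℂ) y
  /-- The semigroup is not identically zero. -/
  nonzero : ∃ t : ℂ, 0 < t.re ∧ a t ≠ 0

/-- `‖a^{x + iy}‖ → ∞` as `x → 0+`. -/
def BlowsUpAt (a : ℂ → Lp ℂ 1 (volume : Measure ℝ)) (y : ℝ) : Prop :=
  Tendsto (fun x : ℝ => ‖a ((x : ℂ) + Complex.I * y)‖) (𝓝[>] 0) atTop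

theorem sb_of_not {a : ℂ → Lp ℂ 1 (volume : Measure ℝ)} {y : ℝ} (h : ¬ BlowsUpAt a y) :
    Y869.LS.SB a y := by
  unfold BlowsUpAt at h
  rw [tendsto_atTop] at h
  push Not at h
  obtain ⟨C, hC⟩ := h
  refine ⟨C, fun δ hδ => ?_⟩
  have h2 : ∀ᶠ x : ℝ in 𝓝[>] (0 : ℝ), x ∈ Set.Ioo 0 δ := Ioo_mem_nhdsGT hδ
  obtain ⟨x, hx, hx0, hxδ⟩ := (hC.and_eventually h2).exists
  exact ⟨x, hx0, hxδ, hx.le⟩

/-- **Boundary blow-up of analytic semigroups in `L¹(ℝ)`.** Let `(a^t)` be an analytic semigroup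
in `L¹(ℝ)`.
(1) For almost every real `y`, `‖a^{x+iy}‖ → ∞` or `‖a^{x-iy}‖ → ∞` as `x → 0+`.
(2) For every set `E` of reals which is not a null set, every `r > 0` and every `C` there are
`y ∈ E` and `0 < x < r` with `‖a^{x+iy}‖ > C` or `‖a^{x-iy}‖ > C`.
(3) For every `r > 0` the semigroup is unbounded on the half disc `|t| ≤ r`, `Re t > 0`; for `r = 1`
this is the (negative) answer to the question of the problem. -/
theorem result (a : ℂ → Lp ℂ 1 (volume : Measure ℝ)) (ha : IsAnalyticSemigroup a) :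
    (∀ᵐ y : ℝ, BlowsUpAt a y ∨ BlowsUpAt a (-y)) ∧
    (∀ E : Set ℝ, volume E ≠ 0 → ∀ r : ℝ, 0 < r → ∀ C : ℝ, ∃ y ∈ E, ∃ x : ℝ, 0 < x ∧ x < r ∧
      (C < ‖a ((x : ℂ) + Complex.I * y)‖ ∨ C < ‖a ((x : ℂ) - Complex.I * y)‖)) ∧
    (∀ r : ℝ, 0 < r → ¬ ∃ C : ℝ, ∀ t : ℂ, 0 < t.re → ‖t‖ ≤ r → ‖a t‖ ≤ C) := by
  have h1 : ∀ᵐ y : ℝ, BlowsUpAt a y ∨ BlowsUpAt a (-y) := by
    rw [ae_iff]
    refine measure_mono_null ?_ (Y869.LS.blow a ha.holomorphic
      (fun s t hs ht => ha.semigroup s t hs ht) ha.nonzero)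
    intro y hy
    rw [Set.mem_ofPred_eq, not_or] at hy
    exact ⟨sb_of_not hy.1, sb_of_not hy.2⟩
  have h2 : ∀ E : Set ℝ, volume E ≠ 0 → ∀ r : ℝ, 0 < r → ∀ C : ℝ, ∃ y ∈ E, ∃ x : ℝ, 0 < x ∧
      x < r ∧ (C < ‖a ((x : ℂ) + Complex.I * y)‖ ∨ C < ‖a ((x : ℂ) - Complex.I * y)‖) := by
    intro E hE r hr C
    obtain ⟨y, hyE, hy⟩ : ∃ y ∈ E, BlowsUpAt a y ∨ BlowsUpAt a (-y) := by
      by_contra hcon
      push Not at hcon
      apply hE
      refine measure_mono_null ?_ (ae_iff.1 h1)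
      intro y hy
      rw [Set.mem_ofPred_eq, not_or]
      exact hcon y hy
    refine ⟨y, hyE, ?_⟩
    have h3 : ∀ᶠ x : ℝ in 𝓝[>] (0 : ℝ), x ∈ Set.Ioo 0 r := Ioo_mem_nhdsGT hr
    rcases hy with hy | hy
    · obtain ⟨x, hx, hx0, hxr⟩ := ((hy.eventually_gt_atTop C).and h3).exists
      exact ⟨x, hx0, hxr, Or.inl hx⟩
    · obtain ⟨x, hx, hx0, hxr⟩ := ((hy.eventually_gt_atTop C).and h3).exists
      refine ⟨x, hx0, hxr, Or.inr ?_⟩
      rw [Complex.ofReal_neg, mul_neg, ← sub_eq_add_neg] at hx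
      exact hx
  refine ⟨h1, h2, ?_⟩
  rintro r hr ⟨C, hC⟩
  have hE : volume (Set.Ioo (0 : ℝ) (r / 2)) ≠ 0 := by
    rw [Real.volume_Ioo, sub_zero]
    simpa using hr
  obtain ⟨y, hy, x, hx0, hxr, h⟩ := h2 _ hE (r / 2) (half_pos hr) C
  have hn : ∀ s : ℝ, |s| = y → ‖(x : ℂ) + Complex.I * s‖ ≤ r := by
    intro s hs
    refine (norm_add_le _ _).trans ?_
    rw [norm_mul, Complex.norm_I, one_mul, Complex.norm_real, Complex.norm_real,
      Real.norm_of_nonneg hx0.le, Real.norm_eq_abs, hs]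
    linarith [hy.2]
  rcases h with h | h
  · exact absurd (hC _ (by simpa using hx0) (hn y (abs_of_pos hy.1))) (not_le.2 h)
  · have e : (x : ℂ) - Complex.I * y = (x : ℂ) + Complex.I * ((-y : ℝ) : ℂ) := by
      push_cast
      ring
    rw [e] at h
    exact absurd (hC _ (by simpa using hx0) (hn (-y) (by rw [abs_neg, abs_of_pos hy.1])))
      (not_le.2 h)

end Pool.Agent.Results.MP_8f84d8_an.BoundaryBlowUp
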